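import Pool.Agent.helper86.BK.Spec

/-!
# Project bk, module WIN: windows
-/

set_option autoImplicit false

namespace Pool.Agent.BK

open Finset

/-- powers with a positive exponent are eventually large -/
theorem WIN_large (e C : ℝ) (he : 0 < e) : ∃ N₀ : ℕ, ∀ N : ℕ, N₀ ≤ N → C ≤ (N : ℝ) ^ e := by
  have h := ((tendsto_rpow_atTop he).comp tendsto_natCast_atTop_atTop).eventually_ge_atTop C
  exact Filter.eventually_atTop.1 h

/-- the covered integers in the window -/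
theorem WIN_window (M : ℕ) (x : ℝ) (Q : Finset ℕ) (a : ℕ → ℤ) (W i : ℕ)
    (hQ : ∀ q ∈ Q, 1 ≤ q ∧ q ≤ M) (hW : M * ⌈x⌉₊ ≤ W) (B : Finset ℤ)
    (hB : ∀ n : ℤ, (i * W : ℤ) < n → n ≤ ((i + 1) * W : ℤ) → (∃ q ∈ Q, (q : ℤ) ∣ n - a q) →
      n ∈ B) : ∀ q ∈ Q, HasAP B q x := by
  intro q hq
  obtain ⟨hq1, hqM⟩ := hQ q hq
  have hq0 : (0 : ℤ) < q := by exact_mod_cast hq1
  refine ⟨i * W + 1 + (a q - (i * W + 1)) % q, ?_⟩
  intro k hk
  have h1 : 0 ≤ (a q - (i * W + 1)) % (q : ℤ) := Int.emod_nonneg _ hq0.ne'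
  have h2 : (a q - (i * W + 1)) % (q : ℤ) < q := Int.emod_lt_of_pos _ hq0
  have hkK : k < ⌈x⌉₊ := Nat.lt_ceil.2 hk
  have hkq : (0 : ℤ) ≤ k * q := by positivity
  have h3 : ((k : ℤ) + 1) * q ≤ W := by
    have h4 : (k + 1) * q ≤ W := by
      calc (k + 1) * q ≤ ⌈x⌉₊ * M := Nat.mul_le_mul hkK hqM
        _ = M * ⌈x⌉₊ := mul_comm _ _
        _ ≤ W := hW
    exact_mod_cast h4
  apply hB
  · linarith
  · have : ((i : ℤ) + 1) * W = i * W + W := by ring
    rw [this]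
    have h5 : ((k : ℤ) + 1) * q = k * q + q := by ring
    linarith
  · refine ⟨q, hq, ?_⟩
    have h6 : (q : ℤ) ∣ (a q - (i * W + 1)) - (a q - (i * W + 1)) % (q : ℤ) :=
      Int.dvd_self_sub_emod
    obtain ⟨u, hu⟩ := h6
    refine ⟨k - u, ?_⟩
    have h7 : (q : ℤ) * (k - u) = k * q - q * u := by ring
    rw [h7, ← hu]
    ring

/-- sum over the windows -/
theorem WIN_sum (Q : Finset ℕ) (a : ℕ → ℤ) (N W J : ℕ) (hJ : J * W ≤ N) (m : ℝ)
    (h : ∀ i < J, ∀ B : Finset ℤ,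
      (∀ n : ℤ, (i * W : ℤ) < n → n ≤ ((i + 1) * W : ℤ) → (∃ q ∈ Q, (q : ℤ) ∣ n - a q) → n ∈ B) →
      m ≤ B.card) : J * m ≤ cov Q a N := by
  classical
  let S : Finset ℕ := (Finset.Icc 1 N).filter fun n => ∃ q ∈ Q, (q : ℤ) ∣ (n : ℤ) - a q
  have hS : cov Q a N = S.card := by
    unfold cov
    rw [← Set.ncard_coe_finset]
    congr 1
    ext n
    simp only [Set.mem_ofPred_eq, S, Finset.coe_filter, Finset.mem_Icc, Finset.mem_coe]
    tauto
  let T : ℕ → Finset ℕ := fun i => S.filter fun n => i * W < n ∧ n ≤ (i + 1) * W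
  have hdisj : ∀ i ∈ Finset.range J, ∀ j ∈ Finset.range J, i ≠ j → Disjoint (T i) (T j) := by
    intro i _ j _ hij
    rw [Finset.disjoint_left]
    intro n hn hn'
    simp only [T, Finset.mem_filter] at hn hn'
    rcases Nat.lt_or_gt_of_ne hij with h1 | h1
    · have : (i + 1) * W ≤ j * W := Nat.mul_le_mul_right _ h1
      omega
    · have : (j + 1) * W ≤ i * W := Nat.mul_le_mul_right _ h1
      omega
  have hT : ∀ i < J, m ≤ (T i).card := by
    intro i hi
    have h1 := h i hi ((T i).image (Nat.cast : ℕ → ℤ)) (by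
      intro n hn1 hn2 hn3
      have hn0 : 0 ≤ n := by
        have : (0 : ℤ) ≤ i * W := by positivity
        linarith
      obtain ⟨n', rfl⟩ := Int.eq_ofNat_of_zero_le hn0
      have h2 : i * W < n' := by exact_mod_cast hn1
      have h3 : n' ≤ (i + 1) * W := by exact_mod_cast hn2
      have h4 : (i + 1) * W ≤ J * W := Nat.mul_le_mul_right _ hi
      apply Finset.mem_image_of_mem
      simp only [T, S, Finset.mem_filter, Finset.mem_Icc]
      exact ⟨⟨⟨by omega, by omega⟩, hn3⟩, h2, h3⟩)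
    rwa [Finset.card_image_of_injective _ Nat.cast_injective] at h1
  calc J * m = ∑ i ∈ Finset.range J, m := by rw [Finset.sum_const, Finset.card_range, nsmul_eq_mul]
    _ ≤ ∑ i ∈ Finset.range J, ((T i).card : ℝ) :=
      Finset.sum_le_sum fun i hi => hT i (Finset.mem_range.1 hi)
    _ = (((Finset.range J).biUnion T).card : ℝ) := by
      rw [Finset.card_biUnion hdisj]
      push_cast
      rfl
    _ ≤ S.card := by
      exact_mod_cast Finset.card_le_card (Finset.biUnion_subset.2 fun i _ => Finset.filter_subset _ _)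
    _ = cov Q a N := by rw [hS]

theorem WIN : WIN_stmt := by
  intro c hc hWA α hα hα1 ε hε
  set ε' : ℝ := min (ε / 4) (min ((1 / α - 1) / 4) (1 / 4)) with hε'
  have hα' : 0 < 1 / α - 1 := by
    rw [sub_pos, lt_div_iff₀ hα]
    linarith
  have hε'pos : 0 < ε' := lt_min (by linarith) (lt_min (by linarith) (by norm_num))
  have hε'1 : ε' ≤ ε / 4 := min_le_left _ _
  have hε'2 : ε' ≤ (1 / α - 1) / 4 := (min_le_right _ _).trans (min_le_left _ _)
  have hε'3 : ε' ≤ 1 / 4 := (min_le_right _ _).trans (min_le_right _ _)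
  obtain ⟨δ₁, hδ₁, hδε, M₀, hM₀⟩ := hWA ε' hε'pos
  refine ⟨α * δ₁ / 2, by positivity, ?_⟩
  obtain ⟨N₁, hN₁⟩ := WIN_large α M₀ hα
  obtain ⟨N₂, hN₂⟩ := WIN_large (α * δ₁ / 2) 3 (by positivity)
  obtain ⟨N₃, hN₃⟩ := WIN_large (ε / 2) (6 * 3 ^ (c + 1)) (by positivity)
  obtain ⟨N₄, hN₄⟩ := WIN_large (3 * (1 - α) / 4) 54 (by linarith)
  refine ⟨max (max N₁ N₂) (max (max N₃ N₄) 1), ?_⟩
  intro N hN Q hQ hQc a
  have hNN₁ : N₁ ≤ N := le_trans (le_trans (le_max_left _ _) (le_max_left _ _)) hN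
  have hNN₂ : N₂ ≤ N := le_trans (le_trans (le_max_right _ _) (le_max_left _ _)) hN
  have hNN₃ : N₃ ≤ N :=
    le_trans (le_trans (le_trans (le_max_left _ _) (le_max_left _ _)) (le_max_right _ _)) hN
  have hNN₄ : N₄ ≤ N :=
    le_trans (le_trans (le_trans (le_max_right _ _) (le_max_left _ _)) (le_max_right _ _)) hN
  have hN1 : 1 ≤ N := le_trans (le_trans (le_max_right _ _) (le_max_right _ _)) hN
  have hNr : (1 : ℝ) ≤ N := by exact_mod_cast hN1
  have hN0 : (0 : ℝ) < N := by linarith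
  set P : ℝ := (N : ℝ) ^ α with hP
  have hP1 : 1 ≤ P := Real.one_le_rpow hNr hα.le
  set M : ℕ := ⌈2 * P⌉₊ with hM
  have hM2 : 2 * P ≤ M := Nat.le_ceil _
  have hM3 : (M : ℝ) ≤ 3 * P := by
    have := (Nat.ceil_lt_add_one (show 0 ≤ 2 * P by linarith)).le
    rw [← hM] at this
    linarith
  have hM1 : (1 : ℝ) ≤ M := by linarith
  have hM0 : (0 : ℝ) < M := by linarith
  set x : ℝ := (M : ℝ) ^ δ₁ with hx
  have hx1 : 1 ≤ x := Real.one_le_rpow hM1 hδ₁.le
  set W : ℕ := M * (⌈x⌉₊ + 1) with hW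
  have hWx : (W : ℝ) ≤ 3 * (M * x) := by
    have h1 := (Nat.ceil_lt_add_one (show 0 ≤ x by linarith)).le
    rw [hW]
    push_cast
    calc (M : ℝ) * (⌈x⌉₊ + 1) ≤ M * (3 * x) := by
          gcongr
          linarith
      _ = 3 * (M * x) := by ring
  have hMx : (M : ℝ) * x = (M : ℝ) ^ (1 + δ₁) := by
    rw [Real.rpow_add hM0, Real.rpow_one]
  have hWpos : 0 < W := by
    rw [hW]
    have : 0 < M := by exact_mod_cast hM0
    positivity
  have hWr : (0 : ℝ) < W := by exact_mod_cast hWpos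
  -- the windows fit
  have h2W : 2 * (W : ℝ) ≤ N := by
    have h1 : (M : ℝ) ^ (1 + δ₁) ≤ 9 * (N : ℝ) ^ (α * (1 + δ₁)) := by
      calc (M : ℝ) ^ (1 + δ₁) ≤ (3 * P) ^ (1 + δ₁) := by
            apply Real.rpow_le_rpow hM0.le hM3 (by linarith)
        _ = 3 ^ (1 + δ₁) * P ^ (1 + δ₁) := Real.mul_rpow (by norm_num) (by linarith)
        _ ≤ 3 ^ (2 : ℝ) * P ^ (1 + δ₁) := by
            gcongr
            · norm_num
            · linarith
        _ = 9 * (N : ℝ) ^ (α * (1 + δ₁)) := by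
            rw [hP, ← Real.rpow_mul hN0.le]
            norm_num
    have h2 : (N : ℝ) ^ (α * (1 + δ₁)) * (N : ℝ) ^ (3 * (1 - α) / 4) ≤ N := by
      rw [← Real.rpow_add hN0]
      calc (N : ℝ) ^ (α * (1 + δ₁) + 3 * (1 - α) / 4) ≤ (N : ℝ) ^ (1 : ℝ) := by
            apply Real.rpow_le_rpow_of_exponent_le hNr
            have h3 : δ₁ ≤ (1 / α - 1) / 4 := hδε.le.trans hε'2
            have h4 : α * δ₁ ≤ α * ((1 / α - 1) / 4) := by gcongr
            have h5 : α * ((1 / α - 1) / 4) = (1 - α) / 4 := by field_simp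
            rw [h5] at h4
            linarith
        _ = N := Real.rpow_one _
    have h3 : 0 ≤ (N : ℝ) ^ (α * (1 + δ₁)) := by positivity
    have h4 := hN₄ N hNN₄
    have h5 : (N : ℝ) ^ (α * (1 + δ₁)) * 54 ≤ N := by
      refine le_trans ?_ h2
      gcongr
    rw [← hMx] at h1
    linarith
  set J : ℕ := N / W with hJ
  have hJW : J * W ≤ N := Nat.div_mul_le_self _ _
  have hJlow : (N : ℝ) / (2 * W) ≤ J := by
    have h1 : (N : ℝ) < (J + 1) * W := by
      have : N < (J + 1) * W := by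
        rw [hJ, mul_comm]
        exact Nat.lt_mul_div_succ N hWpos
      exact_mod_cast this
    rw [div_le_iff₀ (by positivity)]
    nlinarith
  -- the moduli
  have hQM : ∀ q ∈ Q, 1 ≤ q ∧ q ≤ M := by
    intro q hq
    have h1 : (N : ℝ) ^ α ≤ q ∧ (q : ℝ) < 2 * (N : ℝ) ^ α := hQ hq
    constructor
    · have : (1 : ℝ) ≤ q := hP1.trans h1.1
      exact_mod_cast this
    · have : (q : ℝ) ≤ M := h1.2.le.trans hM2
      exact_mod_cast this
  have hMM₀ : M₀ ≤ M := by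
    have h1 := hN₁ N hNN₁
    have : (M₀ : ℝ) ≤ M := by linarith
    exact_mod_cast this
  have hQcard : (M : ℝ) ^ (1 - δ₁) ≤ Q.card := by
    refine le_trans ?_ hQc
    calc (M : ℝ) ^ (1 - δ₁) ≤ (3 * P) ^ (1 - δ₁) := by
          apply Real.rpow_le_rpow hM0.le hM3 (by linarith)
      _ = 3 ^ (1 - δ₁) * P ^ (1 - δ₁) := Real.mul_rpow (by norm_num) (by linarith)
      _ ≤ 3 ^ (1 : ℝ) * P ^ (1 - δ₁) := by
          gcongr
          · norm_num
          · linarith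
      _ = 3 * (N : ℝ) ^ (α * (1 - δ₁)) := by
          rw [hP, ← Real.rpow_mul hN0.le, Real.rpow_one]
      _ ≤ (N : ℝ) ^ (α * δ₁ / 2) * (N : ℝ) ^ (α * (1 - δ₁)) := by
          gcongr
          exact hN₂ N hNN₂
      _ = (N : ℝ) ^ (α - α * δ₁ / 2) := by
          rw [← Real.rpow_add hN0]
          congr 1
          ring
  -- the sum over the windows
  have hsum := WIN_sum Q a N W J hJW ((M : ℝ) ^ (1 - c - ε')) (by
    intro i _ B hB
    apply hM₀ M hMM₀ B Q hQM hQcard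
    apply WIN_window M x Q a W i hQM _ B hB
    rw [hW]
    exact Nat.mul_le_mul_left _ (Nat.le_succ _))
  refine le_trans ?_ hsum
  -- final comparison
  set e : ℝ := c + ε' + δ₁ with he
  have he0 : 0 ≤ e := by linarith
  have hMe : (M : ℝ) ^ (1 - c - ε') = (M * x) * (M : ℝ) ^ (-e) := by
    rw [hMx, ← Real.rpow_add hM0]
    congr 1
    rw [he]; ring
  have hPe : (3 * P) ^ (-e) ≤ (M : ℝ) ^ (-e) :=
    Real.rpow_le_rpow_of_nonpos hM0 hM3 (by linarith)
  have h3 : (1 : ℝ) ≤ 3 := by norm_num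
  have h3e : (3 : ℝ) ^ e ≤ 3 ^ (c + 1) := by
    apply Real.rpow_le_rpow_of_exponent_le h3
    linarith
  have h3pos : (0 : ℝ) < 3 ^ e := by positivity
  have hfin : (N : ℝ) ^ (1 - c * α - ε) * (6 * 3 ^ e) ≤ N * (N : ℝ) ^ (-(α * e)) := by
    calc (N : ℝ) ^ (1 - c * α - ε) * (6 * 3 ^ e)
        ≤ (N : ℝ) ^ (1 - c * α - ε) * (N : ℝ) ^ (ε / 2) := by
          gcongr
          refine le_trans ?_ (hN₃ N hNN₃)
          gcongr
      _ = (N : ℝ) ^ (1 - c * α - ε + ε / 2) := (Real.rpow_add hN0 _ _).symm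
      _ ≤ (N : ℝ) ^ (1 + -(α * e)) := by
          apply Real.rpow_le_rpow_of_exponent_le hNr
          have h1 : α * (ε' + δ₁) ≤ 1 * (ε' + δ₁) := by gcongr
          have h2 : α * e = c * α + α * (ε' + δ₁) := by rw [he]; ring
          rw [h2]
          linarith
      _ = N * (N : ℝ) ^ (-(α * e)) := by rw [Real.rpow_add hN0, Real.rpow_one]
  have hPrw : (3 * P) ^ (-e) = (N : ℝ) ^ (-(α * e)) / 3 ^ e := by
    rw [Real.mul_rpow (by norm_num) (by linarith), Real.rpow_neg (by norm_num : (0 : ℝ) ≤ 3), hP,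
      ← Real.rpow_mul hN0.le, mul_neg]
    rw [div_eq_mul_inv, mul_comm]
  have hMx0 : 0 < (M : ℝ) * x := by positivity
  calc (N : ℝ) ^ (1 - c * α - ε)
      ≤ N * (N : ℝ) ^ (-(α * e)) / (6 * 3 ^ e) := by
        rw [le_div_iff₀ (by positivity)]
        exact hfin
    _ = N / 6 * (3 * P) ^ (-e) := by
        rw [hPrw]
        field_simp
    _ ≤ N / 6 * (M : ℝ) ^ (-e) := by gcongr
    _ = N / (2 * (3 * (M * x))) * ((M * x) * (M : ℝ) ^ (-e)) := by
        field_simp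
        ring
    _ ≤ N / (2 * W) * ((M * x) * (M : ℝ) ^ (-e)) := by gcongr
    _ = N / (2 * W) * (M : ℝ) ^ (1 - c - ε') := by rw [hMe]
    _ ≤ J * (M : ℝ) ^ (1 - c - ε') := by gcongr

end Pool.Agent.BK
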